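import Mathlib

set_option autoImplicit false

/-! The two-element patterns `{x, A(x) + B(x) z}` over the positive integers: if the values of `B`
have no common prime divisor then every finite colouring of the integers has `x`, `z` with `x` and
`A(x) + B(x) z` of the same colour. -/

namespace Pool.Agent.Y713.PT

open Polynomial

theorem eval_modEq (B : Polynomial ℕ) {a b n : ℕ} (h : a ≡ b [MOD n]) :
    B.eval a ≡ B.eval b [MOD n] := by
  induction B using Polynomial.induction_on' with
  | add p q hp hq => simpa using hp.add hq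
  | monomial k c => simpa using (h.pow k).mul_left c

theorem eval_pos {B : Polynomial ℕ} (hB : B ≠ 0) {x : ℕ} (hx : 0 < x) : 0 < B.eval x := by
  have h1 : B.coeff B.natDegree * x ^ B.natDegree ≤ B.eval x := by
    rw [Polynomial.eval_eq_sum_range]
    exact Finset.single_le_sum (f := fun i => B.coeff i * x ^ i) (fun i _ => Nat.zero_le _)
      (Finset.mem_range.2 (Nat.lt_succ_self _))
  have h2 : 0 < B.coeff B.natDegree := by
    have := leadingCoeff_ne_zero.2 hB
    exact Nat.pos_of_ne_zero this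
  have h3 : 0 < B.coeff B.natDegree * x ^ B.natDegree := Nat.mul_pos h2 (pow_pos hx _)
  omega

/-- no prime divides all values of `B` -/
def NoFixedPrime (B : Polynomial ℕ) : Prop := ∀ p : ℕ, p.Prime → ∃ r : ℕ, ¬ p ∣ B.eval r

theorem NoFixedPrime.ne_zero {B : Polynomial ℕ} (hB : NoFixedPrime B) : B ≠ 0 := by
  rintro rfl
  obtain ⟨r, hr⟩ := hB 2 Nat.prime_two
  simp at hr

theorem exists_coprime {B : Polynomial ℕ} (hB : NoFixedPrime B) {Q : ℕ} (hQ : 0 < Q) :
    ∃ r : ℕ, Nat.Coprime (B.eval r) Q := by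
  classical
  choose! f hf using hB
  obtain ⟨k, hk⟩ := Nat.chineseRemainderOfFinset (a := f) (s := id) Q.primeFactors
    (fun p hp => (Nat.prime_of_mem_primeFactors hp).ne_zero)
    (fun p hp q hq hpq => (Nat.coprime_primes (Nat.prime_of_mem_primeFactors hp)
      (Nat.prime_of_mem_primeFactors hq)).2 hpq)
  refine ⟨k, Nat.Coprime.symm (Nat.coprime_of_dvd ?_)⟩
  intro p hp hpQ hpB
  have hmem : p ∈ Q.primeFactors := Nat.mem_primeFactors.2 ⟨hp, hpQ, hQ.ne'⟩
  have h1 : k ≡ f p [MOD p] := hk p hmem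
  have h2 := eval_modEq B h1
  exact hf p hp ((Nat.ModEq.dvd_iff h2 dvd_rfl).1 hpB)

section
variable (A B : Polynomial ℕ) (M r : ℕ) (c : ℕ → Fin r)

/-- a colour which occurs at integers with `B`-value coprime to any given integer -/
def Pers (i : Fin r) : Prop := ∀ Q : ℕ, 0 < Q → ∃ x : ℕ, M < x ∧ Nat.Coprime (B.eval x) Q ∧ c x = i

theorem exists_Q0 : ∃ Q0 : ℕ, 0 < Q0 ∧ ∀ x : ℕ, M < x → Nat.Coprime (B.eval x) Q0 →
    Pers B M r c (c x) := by
  classical
  have h : ∀ i : Fin r, ∃ Q : ℕ, 0 < Q ∧ (Pers B M r c i ∨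
      ∀ x : ℕ, M < x → Nat.Coprime (B.eval x) Q → c x ≠ i) := by
    intro i
    by_cases hi : Pers B M r c i
    · exact ⟨1, one_pos, Or.inl hi⟩
    · unfold Pers at hi
      push Not at hi
      obtain ⟨Q, hQ, h⟩ := hi
      exact ⟨Q, hQ, Or.inr h⟩
  choose Q hQ hQ2 using h
  refine ⟨∏ i, Q i, Finset.prod_pos fun i _ => hQ i, ?_⟩
  intro x hx hc
  rcases hQ2 (c x) with h | h
  · exact h
  · exact absurd rfl (h x hx (hc.coprime_dvd_right (Finset.dvd_prod_of_mem Q (Finset.mem_univ _))))

theorem exists_points (hB : NoFixedPrime B) (Q0 : ℕ) (hQ0 : 0 < Q0) (s : Finset (Fin r))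
    (hs : ∀ i ∈ s, Pers B M r c i) :
    ∃ x : Fin r → ℕ, (∀ i ∈ s, M < x i ∧ c (x i) = i ∧ Nat.Coprime (B.eval (x i)) Q0) ∧
      ∀ i ∈ s, ∀ j ∈ s, i ≠ j → Nat.Coprime (B.eval (x i)) (B.eval (x j)) := by
  classical
  induction s using Finset.induction_on with
  | empty => exact ⟨fun _ => 0, by simp, by simp⟩
  | insert a s ha ih =>
    obtain ⟨x, h1, h2⟩ := ih (fun i hi => hs i (Finset.mem_insert_of_mem hi))
    have hpos : 0 < Q0 * ∏ j ∈ s, B.eval (x j) := by
      refine Nat.mul_pos hQ0 (Finset.prod_pos fun j hj => eval_pos hB.ne_zero ?_)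
      have := (h1 j hj).1
      omega
    obtain ⟨y, hy1, hy2, hy3⟩ := hs a (Finset.mem_insert_self _ _) _ hpos
    have hyQ : Nat.Coprime (B.eval y) Q0 := hy2.coprime_dvd_right (Dvd.intro _ rfl)
    have hyj : ∀ j ∈ s, Nat.Coprime (B.eval y) (B.eval (x j)) := fun j hj =>
      hy2.coprime_dvd_right ((Finset.dvd_prod_of_mem (fun j => B.eval (x j)) hj).mul_left _)
    have hne : ∀ j ∈ s, j ≠ a := fun j hj h => ha (h ▸ hj)
    refine ⟨Function.update x a y, ?_, ?_⟩
    · intro i hi
      rcases Finset.mem_insert.1 hi with hi' | hi'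
      · subst hi'; simp only [Function.update_self]; exact ⟨hy1, hy3, hyQ⟩
      · rw [Function.update_of_ne (hne i hi')]; exact h1 i hi'
    · intro i hi j hj hij
      rcases Finset.mem_insert.1 hi with hi' | hi'
      · rcases Finset.mem_insert.1 hj with hj' | hj'
        · exact absurd (hi'.trans hj'.symm) hij
        · rw [hi', Function.update_self, Function.update_of_ne (hne j hj')]; exact hyj j hj'
      · rcases Finset.mem_insert.1 hj with hj' | hj'
        · rw [hj', Function.update_self, Function.update_of_ne (hne i hi')]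
          exact (hyj i hi').symm
        · rw [Function.update_of_ne (hne i hi'), Function.update_of_ne (hne j hj')]
          exact h2 i hi' j hj' hij

/-- **Partition regularity over the positive integers.** -/
theorem natPart (hB : NoFixedPrime B) : ∃ x z : ℕ, M < x ∧ M < z ∧ x < z ∧
    x < A.eval x + B.eval x * z ∧ c x = c (A.eval x + B.eval x * z) := by
  classical
  obtain ⟨Q0, hQ0, hpers⟩ := exists_Q0 B M r c
  obtain ⟨x, h1, h2⟩ := exists_points B M r c hB Q0 hQ0
    (Finset.univ.filter fun i => Pers B M r c i) (fun i hi => (Finset.mem_filter.1 hi).2)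
  set s : Finset (Fin r) := Finset.univ.filter fun i => Pers B M r c i with hs
  have hposB : ∀ i ∈ s, 0 < B.eval (x i) := fun i hi => eval_pos hB.ne_zero (by
    have := (h1 i hi).1
    omega)
  obtain ⟨k, hk⟩ := Nat.chineseRemainderOfFinset (a := fun i => A.eval (x i))
    (s := fun i => B.eval (x i)) s (fun i hi => (hposB i hi).ne')
    (fun i hi j hj hij => h2 i hi j hj hij)
  obtain ⟨ρ, hρ⟩ := exists_coprime hB hQ0
  set P : ℕ := ∏ i ∈ s, B.eval (x i) with hP
  have hPpos : 0 < P := Finset.prod_pos hposB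
  have hcop : Nat.Coprime P Q0 := Nat.Coprime.prod_left fun i hi => (h1 i hi).2.2
  obtain ⟨y0, hy1, hy2⟩ := Nat.chineseRemainder hcop k ρ
  set big : ℕ := (∑ i ∈ s, (A.eval (x i) + B.eval (x i) * (M + 1 + x i))) + M + 1 with hbig
  set y : ℕ := y0 + P * Q0 * big with hy
  have hPQ : 1 ≤ P * Q0 := Nat.mul_pos hPpos hQ0
  have hyb : big ≤ y := by
    have : 1 * big ≤ P * Q0 * big := Nat.mul_le_mul_right _ hPQ
    omega
  have hyQ : y ≡ ρ [MOD Q0] := by
    have : y ≡ y0 [MOD Q0] := by
      rw [hy, mul_right_comm]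
      exact Nat.ModEq.symm ((Nat.modEq_iff_dvd' (Nat.le_add_right _ _)).2 (by
        rw [Nat.add_sub_cancel_left]; exact Dvd.intro_left _ rfl))
    exact this.trans hy2
  have hyP : y ≡ k [MOD P] := by
    have : y ≡ y0 [MOD P] := by
      rw [hy, mul_assoc]
      exact Nat.ModEq.symm ((Nat.modEq_iff_dvd' (Nat.le_add_right _ _)).2 (by
        rw [Nat.add_sub_cancel_left]; exact Dvd.intro _ rfl))
    exact this.trans hy1
  have hyM : M < y := by omega
  have hyc : Nat.Coprime (B.eval y) Q0 := by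
    have h3 := eval_modEq B hyQ
    have h4 := Nat.ModEq.gcd_eq h3
    unfold Nat.Coprime at hρ ⊢
    rw [h4, hρ]
  have hmem : c y ∈ s := Finset.mem_filter.2 ⟨Finset.mem_univ _, hpers y hyM hyc⟩
  set i := c y with hi
  have hyi : y ≡ A.eval (x i) [MOD B.eval (x i)] :=
    (hyP.of_dvd (Finset.dvd_prod_of_mem (fun j => B.eval (x j)) hmem)).trans (hk i hmem)
  have hle : A.eval (x i) + B.eval (x i) * (M + 1 + x i) ≤ y := by
    have : A.eval (x i) + B.eval (x i) * (M + 1 + x i) ≤
        ∑ i ∈ s, (A.eval (x i) + B.eval (x i) * (M + 1 + x i)) :=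
      Finset.single_le_sum (f := fun i => A.eval (x i) + B.eval (x i) * (M + 1 + x i))
        (fun _ _ => Nat.zero_le _) hmem
    omega
  have hA : A.eval (x i) ≤ y := le_trans (Nat.le_add_right _ _) hle
  obtain ⟨z, hz⟩ := (Nat.modEq_iff_dvd' hA).1 hyi.symm
  have hyz : y = A.eval (x i) + B.eval (x i) * z := by omega
  have hBi := hposB i hmem
  have hzz : M + 1 + x i ≤ z := by
    have : B.eval (x i) * (M + 1 + x i) ≤ B.eval (x i) * z := by omega
    exact Nat.le_of_mul_le_mul_left this hBi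
  have hBz : 1 * z ≤ B.eval (x i) * z := Nat.mul_le_mul_right _ hBi
  refine ⟨x i, z, (h1 i hmem).1, by omega, by omega, by omega, ?_⟩
  rw [← hyz, (h1 i hmem).2.1]

end

end Pool.Agent.Y713.PT
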