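import Pool.Agent.Y713.PT.T

set_option autoImplicit false

/-! The patterns `{x, A(x) + x ^ l z}` over the semiring `T`: the positive cases. -/

namespace Pool.Agent.Y713.PT

open Polynomial

/-- pigeonhole along a chain -/
theorem chain (A : Polynomial ℕ) (l : ℕ)
    (h : ∀ N : ℕ, ∃ u : ℕ → Polynomial ℕ, (∀ i, TT (u i)) ∧ ∀ i j, i < j → j ≤ N →
      ∃ z, TT z ∧ u j = A.comp (u i) + u i ^ l * z) (r : ℕ)
    (c : {f : Polynomial ℕ // TT f} → Fin r) :
    ∃ (x z : Polynomial ℕ) (hx : TT x) (_ : TT z) (hy : TT (A.comp x + x ^ l * z)),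
      c ⟨x, hx⟩ = c ⟨A.comp x + x ^ l * z, hy⟩ := by
  obtain ⟨u, hu, hz⟩ := h r
  obtain ⟨i, j, hij, hc⟩ := Fintype.exists_ne_map_eq_of_card_lt
    (fun k : Fin (r + 1) => c ⟨u k, hu k⟩) (by simp)
  wlog hlt : i < j generalizing i j with H
  · exact H j i (Ne.symm hij) hc.symm (lt_of_le_of_ne (not_lt.1 hlt) (Ne.symm hij))
  obtain ⟨z, hzT, e⟩ := hz i j hlt (by omega)
  refine ⟨u i, z, hu i, hzT, e ▸ hu j, ?_⟩
  simp only [← e]
  exact hc

/-- `l = 0` -/
theorem pos0 (A : Polynomial ℕ) (hA : A.coeff 0 = 0) (N : ℕ) :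
    ∃ u : ℕ → Polynomial ℕ, (∀ i, TT (u i)) ∧ ∀ i j, i < j → j ≤ N →
      ∃ z, TT z ∧ u j = A.comp (u i) + u i ^ 0 * z := by
  let u : ℕ → Polynomial ℕ := fun n => Nat.rec X (fun _ f => f + X + A.comp f) n
  have h1 : ∀ n, u (n + 1) = u n + X + A.comp (u n) := fun n => rfl
  have hu : ∀ i, TT (u i) := by
    intro i
    induction i with
    | zero => exact TT.X
    | succ n ih =>
      rw [h1]
      exact (ih.add (by simp)).add (by rw [coeff_zero_comp A _ ih.2, hA])
  have key : ∀ i d, ∃ z, TT z ∧ u (i + 1 + d) = A.comp (u i) + u i ^ 0 * z := by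
    intro i d
    induction d with
    | zero =>
      refine ⟨u i + X, (hu i).add (by simp), ?_⟩
      rw [add_zero, h1]; ring
    | succ d ih =>
      obtain ⟨z, hz, e⟩ := ih
      refine ⟨z + (X + A.comp (u (i + 1 + d))), hz.add ?_, ?_⟩
      · rw [coeff_add, coeff_zero_comp A _ (hu _).2, hA]; simp
      · rw [← add_assoc (i + 1) d 1, h1, pow_zero, one_mul]
        rw [pow_zero, one_mul] at e
        generalize A.comp (u (i + 1 + d)) = g
        rw [e]; ring
  refine ⟨u, hu, fun i j hij _ => ?_⟩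
  obtain ⟨z, hz, e⟩ := key i (j - (i + 1))
  rw [show i + 1 + (j - (i + 1)) = j by omega] at e
  exact ⟨z, hz, e⟩

/-- `A = 0` -/
theorem posZ (l : ℕ) (hl : 1 ≤ l) (N : ℕ) :
    ∃ u : ℕ → Polynomial ℕ, (∀ i, TT (u i)) ∧ ∀ i j, i < j → j ≤ N →
      ∃ z, TT z ∧ u j = (0 : Polynomial ℕ).comp (u i) + u i ^ l * z := by
  let u : ℕ → Polynomial ℕ := fun n => Nat.rec X (fun _ f => f ^ l * X) n
  have h1 : ∀ n, u (n + 1) = u n ^ l * X := fun n => rfl
  have hu : ∀ i, TT (u i) := by
    intro i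
    induction i with
    | zero => exact TT.X
    | succ n ih => rw [h1]; exact TT.X.mul' (pow_ne_zero _ ih.1)
  obtain ⟨m, rfl⟩ : ∃ m, l = m + 1 := ⟨l - 1, by omega⟩
  have key : ∀ i d, ∃ z, TT z ∧ u (i + 1 + d) = u i ^ (m + 1) * z := by
    intro i d
    induction d with
    | zero => exact ⟨X, TT.X, h1 i⟩
    | succ d ih =>
      obtain ⟨z, hz, e⟩ := ih
      refine ⟨z * (u (i + 1 + d) ^ m * X), hz.mul (mul_ne_zero (pow_ne_zero _ (hu _).1)
        X_ne_zero), ?_⟩
      rw [← add_assoc (i + 1) d 1, h1, pow_succ]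
      generalize u (i + 1 + d) ^ m = g
      rw [e]; ring
  refine ⟨u, hu, fun i j hij _ => ?_⟩
  obtain ⟨z, hz, e⟩ := key i (j - (i + 1))
  rw [show i + 1 + (j - (i + 1)) = j by omega] at e
  exact ⟨z, hz, by rw [zero_comp, zero_add]; exact e⟩

/-- `A = x + x ^ (l + 1) A'`, `l ≥ 1` -/
theorem posX (A' : Polynomial ℕ) (m : ℕ) (N : ℕ) :
    ∃ u : ℕ → Polynomial ℕ, (∀ i, TT (u i)) ∧ ∀ i j, i < j → j ≤ N →
      ∃ z, TT z ∧ u j = (X + X ^ (m + 2) * A').comp (u i) + u i ^ (m + 1) * z := by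
  let u : ℕ → Polynomial ℕ := fun n =>
    Nat.rec X (fun _ f => f + f ^ (m + 1) * (X + f * A'.comp f)) n
  have h1 : ∀ n, u (n + 1) = u n + u n ^ (m + 1) * (X + u n * A'.comp (u n)) := fun n => rfl
  have hu : ∀ i, TT (u i) := by
    intro i
    induction i with
    | zero => exact TT.X
    | succ n ih =>
      rw [h1]
      refine ih.add ?_
      rw [pow_succ, mul_coeff_zero, mul_coeff_zero, ih.2]; simp
  have key : ∀ i d, ∃ z, TT z ∧
      u (i + 1 + d) = u i + u i ^ (m + 1) * (z + u i * A'.comp (u i)) := by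
    intro i d
    induction d with
    | zero => exact ⟨X, TT.X, h1 i⟩
    | succ d ih =>
      obtain ⟨z, hz, e⟩ := ih
      have e2 : u (i + 1 + d) = u i * (1 + u i ^ m * (z + u i * A'.comp (u i))) := by
        rw [e]; ring
      refine ⟨z + (1 + u i ^ m * (z + u i * A'.comp (u i))) ^ (m + 1) *
        (X + u (i + 1 + d) * A'.comp (u (i + 1 + d))), hz.add ?_, ?_⟩
      · rw [mul_coeff_zero, coeff_add, mul_coeff_zero, (hu _).2]; simp
      · rw [← add_assoc (i + 1) d 1, h1]
        set w := X + u (i + 1 + d) * A'.comp (u (i + 1 + d)) with hw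
        have e3 : u (i + 1 + d) ^ (m + 1) = u i ^ (m + 1) *
            (1 + u i ^ m * (z + u i * A'.comp (u i))) ^ (m + 1) := by
          rw [e2, mul_pow]
        rw [e3]
        conv_lhs => rw [e]
        ring
  refine ⟨u, hu, fun i j hij _ => ?_⟩
  obtain ⟨z, hz, e⟩ := key i (j - (i + 1))
  rw [show i + 1 + (j - (i + 1)) = j by omega] at e
  refine ⟨z, hz, ?_⟩
  rw [e]
  simp only [add_comp, X_comp, mul_comp, pow_comp]
  ring

/-- all coefficients of degrees `1, …, D` equal to `K` -/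
noncomputable def full (K D : ℕ) : Polynomial ℕ := ∑ d ∈ Finset.range D, monomial (d + 1) K

theorem full_coeff (K D i : ℕ) : (full K D).coeff i = if 1 ≤ i ∧ i ≤ D then K else 0 := by
  classical
  unfold full
  rw [finsetSum_coeff]
  simp only [coeff_monomial]
  by_cases h : 1 ≤ i ∧ i ≤ D
  · rw [if_pos h, Finset.sum_eq_single (i - 1)]
    · rw [if_pos (by omega)]
    · intro b _ hb; rw [if_neg (by omega)]
    · intro hb; exact absurd (Finset.mem_range.2 (by omega)) hb
  · rw [if_neg h]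
    refine Finset.sum_eq_zero fun b hb => ?_
    rw [if_neg]
    have := Finset.mem_range.1 hb
    omega

/-- coefficientwise domination -/
theorem exists_sub (f g : Polynomial ℕ) (h : ∀ i, g.coeff i ≤ f.coeff i) :
    ∃ z : Polynomial ℕ, f = g + z ∧ ∀ i, z.coeff i = f.coeff i - g.coeff i := by
  classical
  refine ⟨∑ i ∈ f.support, monomial i (f.coeff i - g.coeff i), ?_, ?_⟩
  · ext i
    rw [coeff_add, finsetSum_coeff]
    simp only [coeff_monomial]
    by_cases hi : i ∈ f.support
    · rw [Finset.sum_ite_eq' f.support i (fun j => f.coeff j - g.coeff j), if_pos hi]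
      have := h i; omega
    · rw [Finset.sum_ite_eq' f.support i (fun j => f.coeff j - g.coeff j), if_neg hi]
      have h1 : f.coeff i = 0 := by simpa using hi
      have := h i; omega
  · intro i
    rw [finsetSum_coeff]
    simp only [coeff_monomial]
    by_cases hi : i ∈ f.support
    · rw [Finset.sum_ite_eq' f.support i (fun j => f.coeff j - g.coeff j), if_pos hi]
    · rw [Finset.sum_ite_eq' f.support i (fun j => f.coeff j - g.coeff j), if_neg hi]
      have h1 : f.coeff i = 0 := by simpa using hi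
      omega

/-- a shifted full polynomial dominates every polynomial of high order -/
theorem full_dom (g : Polynomial ℕ) (e : ℕ) (hg : ∀ i ≤ e, g.coeff i = 0) :
    ∃ z, TT z ∧ full (g.eval 1 + 1) (g.natDegree + 1) * X ^ e = g + z := by
  have hco : ∀ i, g.coeff i ≤ g.eval 1 := by
    intro i
    rw [eval_eq_sum_range]
    by_cases hi : i ≤ g.natDegree
    · have := Finset.single_le_sum (f := fun i => g.coeff i * 1 ^ i) (fun i _ => Nat.zero_le _)
        (Finset.mem_range.2 (Nat.lt_succ_of_le hi))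
      simpa using this
    · rw [coeff_eq_zero_of_natDegree_lt (by omega)]; exact Nat.zero_le _
  have hF : ∀ i, (full (g.eval 1 + 1) (g.natDegree + 1) * X ^ e).coeff i =
      if e + 1 ≤ i ∧ i ≤ g.natDegree + 1 + e then g.eval 1 + 1 else 0 := by
    intro i
    rw [coeff_mul_X_pow', full_coeff]
    by_cases h1 : e ≤ i
    · rw [if_pos h1]
      by_cases h2 : e + 1 ≤ i ∧ i ≤ g.natDegree + 1 + e
      · rw [if_pos h2, if_pos (by omega)]
      · rw [if_neg h2, if_neg (by omega)]
    · rw [if_neg h1, if_neg (by omega)]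
  obtain ⟨z, hz, hzc⟩ := exists_sub (full (g.eval 1 + 1) (g.natDegree + 1) * X ^ e) g (by
    intro i
    rw [hF]
    by_cases h2 : e + 1 ≤ i ∧ i ≤ g.natDegree + 1 + e
    · rw [if_pos h2]; have := hco i; omega
    · rw [if_neg h2]
      by_cases h3 : i ≤ e
      · rw [hg i h3]
      · rw [coeff_eq_zero_of_natDegree_lt (by omega)])
  refine ⟨z, ⟨?_, ?_⟩, hz⟩
  · rintro rfl
    have := hzc (e + 1)
    rw [hF, if_pos (by omega)] at this
    have h2 := hco (e + 1)
    simp only [coeff_zero] at this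
    omega
  · rw [hzc 0, hF, if_neg (by omega)]; simp

/-- `l = 1` and `A = x ^ 2 A'` -/
theorem posY (A' : Polynomial ℕ) (N : ℕ) :
    ∃ u : ℕ → Polynomial ℕ, (∀ i, TT (u i)) ∧ ∀ i j, i < j → j ≤ N →
      ∃ z, TT z ∧ u j = (X ^ 2 * A').comp (u i) + u i ^ 1 * z := by
  let g : Polynomial ℕ → Polynomial ℕ := fun f => f * A'.comp f
  let v : Polynomial ℕ → Polynomial ℕ := fun f => full ((g f).eval 1 + 1) ((g f).natDegree + 1)
  let u : ℕ → Polynomial ℕ := fun n => Nat.rec (X ^ (N + 1)) (fun _ f => f * v f) n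
  have h0 : u 0 = X ^ (N + 1) := rfl
  have h1 : ∀ n, u (n + 1) = u n * v (u n) := fun n => rfl
  have hv : ∀ f, TT (v f) := by
    intro f
    refine ⟨?_, ?_⟩
    · intro h
      have := congrArg (fun p => p.coeff 1) h
      simp only [v, full_coeff, coeff_zero] at this
      rw [if_pos (by omega)] at this
      omega
    · simp only [v, full_coeff]; simp
  -- `v = X + rest`
  have hvX : ∀ f, ∃ w, v f = X + w := by
    intro f
    obtain ⟨w, hw, -⟩ := exists_sub (v f) X (by
      intro i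
      simp only [v, full_coeff]
      by_cases hi : i = 1
      · subst hi; rw [if_pos (by omega), coeff_X_one]; omega
      · rw [coeff_X_of_ne_one hi]; exact Nat.zero_le _)
    exact ⟨w, hw⟩
  have hu : ∀ i, TT (u i) := by
    intro i
    induction i with
    | zero => rw [h0]; exact ⟨pow_ne_zero _ X_ne_zero, by simp⟩
    | succ n ih => rw [h1]; exact ih.mul (hv _).1
  have hdvd : ∀ i, X ^ (N + 1) ∣ u i := by
    intro i
    induction i with
    | zero => rw [h0]
    | succ n ih => rw [h1]; exact ih.mul_right _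
  -- quotients
  have hq : ∀ i d, ∃ w, u (i + 1 + d) = u i * (v (u i) * (X ^ d + w)) := by
    intro i d
    induction d with
    | zero => exact ⟨0, by rw [add_zero, h1]; simp⟩
    | succ d ih =>
      obtain ⟨w, hw⟩ := ih
      obtain ⟨w', hw'⟩ := hvX (u (i + 1 + d))
      refine ⟨X ^ d * w' + w * (X + w'), ?_⟩
      rw [← add_assoc (i + 1) d 1, h1]
      rw [hw']
      conv_lhs => rw [hw]
      ring
  refine ⟨u, hu, fun i j hij hj => ?_⟩
  obtain ⟨w, hw⟩ := hq i (j - (i + 1))
  rw [show i + 1 + (j - (i + 1)) = j by omega] at hw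
  obtain ⟨z, hz, hz2⟩ := full_dom (g (u i)) (j - (i + 1)) (by
    intro k hk
    have : X ^ (N + 1) ∣ g (u i) := (hdvd i).mul_right _
    exact (X_pow_dvd_iff.1 this) k (by omega))
  refine ⟨z + v (u i) * w, hz.add ?_, ?_⟩
  · rw [mul_coeff_zero, (hv _).2]; simp
  · rw [hw]
    have e : v (u i) * (X ^ (j - (i + 1)) + w) = g (u i) + (z + v (u i) * w) := by
      rw [mul_add]
      have : v (u i) * X ^ (j - (i + 1)) = g (u i) + z := hz2
      rw [this]; ring
    rw [e]
    simp only [mul_comp, pow_comp, X_comp, g]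
    ring

end Pool.Agent.Y713.PT
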