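import Mathlib

set_option autoImplicit false

/-! The two-element patterns `{x, A(x) + B(x) z}` over the semiring `T` of nonzero one-variable
polynomials with natural coefficients and zero constant term: obstructions. -/

namespace Pool.Agent.Y713.PT

open Polynomial

/-- nonzero, with zero constant term -/
def TT (f : Polynomial ℕ) : Prop := f ≠ 0 ∧ f.coeff 0 = 0

theorem TT.exists_coeff {f : Polynomial ℕ} (h : TT f) : ∃ k, f.coeff k ≠ 0 := by
  by_contra hc
  push Not at hc
  exact h.1 (Polynomial.ext fun k => by simp [hc k])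

theorem TT.add {f g : Polynomial ℕ} (hf : TT f) (hg : g.coeff 0 = 0) : TT (f + g) := by
  refine ⟨?_, by simp [hf.2, hg]⟩
  intro h
  obtain ⟨k, hk⟩ := hf.exists_coeff
  have := congrArg (fun p => p.coeff k) h
  simp only [coeff_add, coeff_zero] at this
  omega

theorem TT.mul {f g : Polynomial ℕ} (hf : TT f) (hg : g ≠ 0) : TT (f * g) :=
  ⟨mul_ne_zero hf.1 hg, by simp [mul_coeff_zero, hf.2]⟩

theorem TT.mul' {f g : Polynomial ℕ} (hf : TT f) (hg : g ≠ 0) : TT (g * f) := by
  rw [mul_comm]; exact hf.mul hg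

theorem TT.X : TT (X : Polynomial ℕ) := ⟨X_ne_zero, by simp⟩

theorem coeff_zero_comp (A x : Polynomial ℕ) (hx : x.coeff 0 = 0) :
    (A.comp x).coeff 0 = A.coeff 0 := by
  rw [coeff_zero_eq_eval_zero, eval_comp, ← coeff_zero_eq_eval_zero x, hx,
    ← coeff_zero_eq_eval_zero]

/-- order of vanishing `n`, lowest coefficient `α` -/
theorem exists_lead {x : Polynomial ℕ} (hx : TT x) : ∃ (n α : ℕ) (x' : Polynomial ℕ), 1 ≤ n ∧
    α ≠ 0 ∧ x = X ^ n * x' ∧ x'.coeff 0 = α := by
  refine ⟨x.natTrailingDegree, x.trailingCoeff, ?_⟩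
  have h0 : x.trailingCoeff ≠ 0 := by simpa using hx.1
  have h1 : X ^ x.natTrailingDegree ∣ x := by
    rw [X_pow_dvd_iff]
    intro d hd
    exact coeff_eq_zero_of_lt_natTrailingDegree hd
  obtain ⟨x', hx'⟩ := h1
  refine ⟨x', ?_, h0, hx', ?_⟩
  · rw [Nat.one_le_iff_ne_zero]
    intro h
    apply h0
    rw [trailingCoeff, h, hx.2]
  · rw [trailingCoeff]
    conv_rhs => rw [hx']
    simp only [coeff_X_pow_mul']
    rw [if_pos]
    · have : (X ^ x.natTrailingDegree * x').natTrailingDegree = x.natTrailingDegree := by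
        rw [← hx']
      rw [this, Nat.sub_self]
    · have : (X ^ x.natTrailingDegree * x').natTrailingDegree = x.natTrailingDegree := by
        rw [← hx']
      rw [this]

theorem ord_eq {f : Polynomial ℕ} {n : ℕ} (h : ∀ i < n, f.coeff i = 0) (hn : f.coeff n ≠ 0) :
    f.natTrailingDegree = n ∧ f.trailingCoeff = f.coeff n := by
  have h0 : f ≠ 0 := by rintro rfl; simp at hn
  have h1 : f.natTrailingDegree = n := le_antisymm (natTrailingDegree_le_of_ne_zero hn)
    (le_natTrailingDegree h0 h)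
  exact ⟨h1, by rw [trailingCoeff, h1]⟩

/-- splitting off the lowest coefficient -/
theorem dec {A : Polynomial ℕ} {k : ℕ} (h : ∀ i < k, A.coeff i = 0) :
    ∃ A' : Polynomial ℕ, A = X ^ k * (C (A.coeff k) + X * A') := by
  obtain ⟨q, hq⟩ := (X_pow_dvd_iff).2 h
  refine ⟨q.divX, ?_⟩
  have h1 : A.coeff k = q.coeff 0 := by rw [hq, coeff_X_pow_mul']; simp
  rw [h1, add_comm, mul_comm X, divX_mul_X_add]
  exact hq

theorem comp_dec (A' x : Polynomial ℕ) (k c : ℕ) :
    (X ^ k * (C c + X * A')).comp x = x ^ k * (C c + x * A'.comp x) := by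
  simp

/-- the coefficients of `x ^ k (c + x h)` up to `k * ord x` -/
theorem coeff_pow {x x' h : Polynomial ℕ} {n α k c : ℕ} (hn : 1 ≤ n) (hx : x = X ^ n * x')
    (hα : x'.coeff 0 = α) :
    (∀ i < k * n, (x ^ k * (C c + x * h)).coeff i = 0) ∧
      (x ^ k * (C c + x * h)).coeff (k * n) = α ^ k * c := by
  have e : x ^ k * (C c + x * h) = X ^ (k * n) * (x' ^ k * (C c + x * h)) := by
    rw [hx, mul_pow, ← pow_mul, mul_comm n k]; ring
  rw [e]
  constructor
  · intro i hi
    rw [coeff_X_pow_mul', if_neg (by omega)]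
  · rw [coeff_X_pow_mul', if_pos le_rfl, Nat.sub_self, mul_coeff_zero, coeff_zero_eq_eval_zero,
      eval_pow, ← coeff_zero_eq_eval_zero, hα]
    have : (x * h).coeff 0 = 0 := by
      rw [mul_coeff_zero, hx, mul_coeff_zero]
      have : (X ^ n : Polynomial ℕ).coeff 0 = 0 := by
        rw [coeff_X_pow, if_neg (by omega)]
      rw [this]; simp
    rw [coeff_add, this]; simp

/-- the coefficients of `B(x) z` up to `l * ord x` vanish, `l` the order of `B` -/
theorem coeff_tail {B x x' z : Polynomial ℕ} {n l : ℕ} (hx : x = X ^ n * x')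
    (hB : ∀ i < l, B.coeff i = 0) (hz : z.coeff 0 = 0) :
    ∀ i ≤ l * n, (B.comp x * z).coeff i = 0 := by
  intro i hi
  obtain ⟨B', hB'⟩ := dec hB
  have hz' : X ∣ z := by rwa [X_dvd_iff]
  obtain ⟨z', hz'⟩ := hz'
  have e : B.comp x * z = X ^ (l * n + 1) * (x' ^ l * (C (B.coeff l) + x * B'.comp x) * z') := by
    conv_lhs => rw [hB', comp_dec, hz', hx]
    rw [mul_pow, ← pow_mul, mul_comm n l, ← hx]; ring
  rw [e, coeff_X_pow_mul', if_neg (by omega)]

section neg
variable {A B : Polynomial ℕ} {l : ℕ}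

/-- the linear coefficient of `A` is at least two -/
theorem neg1 (hA0 : A.coeff 0 = 0) (hB : ∀ i < l, B.coeff i = 0) (hl : 1 ≤ l)
    (ha : 2 ≤ A.coeff 1) : ∃ col : Polynomial ℕ → Fin 2, ∀ x z : Polynomial ℕ, TT x → TT z →
      col x ≠ col (A.comp x + B.comp x * z) := by
  obtain ⟨p, hp, hpa⟩ := Nat.exists_prime_and_dvd (n := A.coeff 1) (by omega)
  have := Fact.mk hp
  have hs : 0 < padicValNat p (A.coeff 1) :=
    Nat.pos_of_ne_zero (by
      rw [← Nat.one_le_iff_ne_zero, ← pow_one p] at *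
      exact (padicValNat_dvd_iff_le (by omega)).1 (by simpa using hpa))
  refine ⟨fun f => ⟨(padicValNat p f.trailingCoeff / padicValNat p (A.coeff 1)) % 2,
    Nat.mod_lt _ (by norm_num)⟩, ?_⟩
  intro x z hx hz h
  obtain ⟨n, α, x', hn, hα, hxx, hα'⟩ := exists_lead hx
  obtain ⟨A', hA'⟩ := dec (A := A) (k := 1) (fun i hi => by
    rw [Nat.lt_one_iff.1 hi]; exact hA0)
  have hx1 : x = x ^ 1 * (C 1 + x * 0) := by simp
  have ex := coeff_pow (k := 1) (c := 1) (h := 0) hn hxx hα'
  rw [← hx1] at ex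
  have hc := coeff_pow (k := 1) (c := A.coeff 1) (h := A'.comp x) hn hxx hα'
  rw [← comp_dec, ← hA'] at hc
  have ht := coeff_tail (n := n) hxx hB hz.2
  have hln : n ≤ l * n := Nat.le_mul_of_pos_left n hl
  have hval := ord_eq (f := A.comp x + B.comp x * z) (n := n)
    (fun i hi => by rw [coeff_add, hc.1 i (by omega), ht i (by omega)])
    (by rw [coeff_add, ← one_mul n, hc.2, ht _ (by omega)]
        have : α ^ 1 * A.coeff 1 ≠ 0 := Nat.mul_ne_zero (by simpa using hα) (by omega)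
        omega)
  have hxo := ord_eq (f := x) (n := n) (fun i hi => ex.1 i (by omega))
    (by rw [← one_mul n, ex.2]; simpa using hα)
  simp only [Fin.mk.injEq] at h
  rw [hval.2, hxo.2, coeff_add, ht n hln, add_zero] at h
  rw [one_mul] at hc ex
  rw [hc.2, ex.2, pow_one, mul_one, padicValNat.mul hα (by omega), Nat.add_div_right _ hs] at h
  omega

/-- the order of `A` is at least two and so is the order of `B` -/
theorem neg2 (hA0 : A.coeff 0 = 0) (hA1 : A.coeff 1 = 0) (hA : A ≠ 0)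
    (hB : ∀ i < l, B.coeff i = 0) (hl : 2 ≤ l) :
    ∃ (r : ℕ) (col : Polynomial ℕ → Fin r), ∀ x z : Polynomial ℕ, TT x → TT z →
      col x ≠ col (A.comp x + B.comp x * z) := by
  obtain ⟨k, hk, c, hc0, A', hA'⟩ : ∃ k, 2 ≤ k ∧ ∃ c, c ≠ 0 ∧ ∃ A' : Polynomial ℕ,
      A = X ^ k * (C c + X * A') := by
    obtain ⟨A', hA'⟩ := dec (A := A) (k := A.natTrailingDegree)
      (fun i hi => coeff_eq_zero_of_lt_natTrailingDegree hi)
    have h0 : A.coeff A.natTrailingDegree ≠ 0 := by
      have := trailingCoeff_nonzero_iff_nonzero.2 hA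
      exact this
    refine ⟨A.natTrailingDegree, ?_, _, h0, A', hA'⟩
    by_contra hlt
    have : A.natTrailingDegree = 0 ∨ A.natTrailingDegree = 1 := by omega
    rcases this with h | h <;> rw [h] at h0 <;> contradiction
  refine ⟨Nat.log 2 k + 2, fun f => ⟨(Nat.log 2 f.natTrailingDegree) % (Nat.log 2 k + 2),
    Nat.mod_lt _ (by omega)⟩, ?_⟩
  intro x z hx hz h
  obtain ⟨n, α, x', hn, hα, hxx, hα'⟩ := exists_lead hx
  have hx1 : x = x ^ 1 * (C 1 + x * 0) := by simp
  have ex := coeff_pow (k := 1) (c := 1) (h := 0) hn hxx hα'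
  rw [← hx1, one_mul] at ex
  have hxo := ord_eq (f := x) (n := n) (fun i hi => ex.1 i hi) (by rw [ex.2]; simpa using hα)
  have hc := coeff_pow (k := k) (c := c) (h := A'.comp x) hn hxx hα'
  rw [← comp_dec, ← hA'] at hc
  have ht := coeff_tail (n := n) hxx hB hz.2
  have hln : 2 * n ≤ l * n := Nat.mul_le_mul_right _ hl
  have hkn : 2 * n ≤ k * n := Nat.mul_le_mul_right _ hk
  set v := A.comp x + B.comp x * z with hv
  have hvk : v.coeff (k * n) ≠ 0 := by
    rw [hv, coeff_add, hc.2]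
    have : α ^ k * c ≠ 0 := Nat.mul_ne_zero (pow_ne_zero _ hα) hc0
    omega
  have hv0 : v ≠ 0 := by rintro h0; rw [h0] at hvk; simp at hvk
  have hup : v.natTrailingDegree ≤ k * n := natTrailingDegree_le_of_ne_zero hvk
  have hlo : 2 * n ≤ v.natTrailingDegree := le_natTrailingDegree hv0 (fun i hi => by
    rw [hv, coeff_add, hc.1 i (by omega), ht i (by omega), add_zero])
  simp only [Fin.mk.injEq] at h
  rw [hxo.1] at h
  have h1 : Nat.log 2 n + 1 ≤ Nat.log 2 v.natTrailingDegree := by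
    have := Nat.log_mono_right (b := 2) hlo
    rw [mul_comm, Nat.log_mul_base (by norm_num) (by omega)] at this
    exact this
  have h2 : Nat.log 2 v.natTrailingDegree ≤ Nat.log 2 n + Nat.log 2 k + 1 := by
    have hv1 : v.natTrailingDegree < 2 ^ (Nat.log 2 n + Nat.log 2 k + 2) := by
      have a1 := Nat.lt_pow_succ_log_self (b := 2) (by norm_num) n
      have a2 := Nat.lt_pow_succ_log_self (b := 2) (by norm_num) k
      calc v.natTrailingDegree ≤ k * n := hup
        _ < 2 ^ (Nat.log 2 k).succ * 2 ^ (Nat.log 2 n).succ := by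
            exact Nat.mul_lt_mul'' a2 a1
        _ = 2 ^ (Nat.log 2 n + Nat.log 2 k + 2) := by
            rw [← pow_add]; congr 1; omega
    have := Nat.log_lt_of_lt_pow (by omega) hv1
    omega
  have h3 : (Nat.log 2 v.natTrailingDegree - Nat.log 2 n) % (Nat.log 2 k + 2) = 0 :=
    Nat.sub_mod_eq_zero_of_mod_eq h.symm
  rw [Nat.mod_eq_of_lt (by omega)] at h3
  omega

/-- `A = x + (terms of order at least two)`, with a term of order at most the order of `B` -/
theorem neg3 (hA0 : A.coeff 0 = 0) (hA1 : A.coeff 1 = 1) (hB : ∀ i < l, B.coeff i = 0)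
    (hs : ∃ s, 2 ≤ s ∧ s ≤ l ∧ A.coeff s ≠ 0) :
    ∃ col : Polynomial ℕ → Fin 2, ∀ x z : Polynomial ℕ, TT x → TT z →
      col x ≠ col (A.comp x + B.comp x * z) := by
  classical
  obtain ⟨s, ⟨hs2, hsl, hs0⟩, hmin⟩ : ∃ s, (2 ≤ s ∧ s ≤ l ∧ A.coeff s ≠ 0) ∧
      ∀ t < s, ¬ (2 ≤ t ∧ t ≤ l ∧ A.coeff t ≠ 0) :=
    ⟨Nat.find hs, Nat.find_spec hs, fun t ht => Nat.find_min hs ht⟩
  obtain ⟨R, hR⟩ : ∃ R : Polynomial ℕ, A = X + X ^ 2 * R := by
    obtain ⟨A1, h1⟩ := dec (A := A) (k := 1) (fun i hi => by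
      rw [Nat.lt_one_iff.1 hi]; exact hA0)
    refine ⟨A1, ?_⟩
    conv_lhs => rw [h1, hA1]
    rw [C_1]; ring
  have hR2 : ∀ i < s, (X ^ 2 * R).coeff i = 0 := by
    intro i hi
    by_cases h2 : i < 2
    · rw [coeff_X_pow_mul', if_neg (by omega)]
    · have h4 : A.coeff i = 0 := by
        by_contra h5
        exact hmin i hi ⟨by omega, by omega, h5⟩
      have h6 : A.coeff i = (X : Polynomial ℕ).coeff i + (X ^ 2 * R).coeff i := by
        conv_lhs => rw [hR, coeff_add]
      omega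
  have hRs : (X ^ 2 * R).coeff s = A.coeff s := by
    have h6 : A.coeff s = (X : Polynomial ℕ).coeff s + (X ^ 2 * R).coeff s := by
      conv_lhs => rw [hR, coeff_add]
    rw [coeff_X_of_ne_one (by omega)] at h6
    omega
  obtain ⟨S, hS⟩ := dec hR2
  rw [hRs] at hS
  set c := A.coeff s with hcdef
  refine ⟨fun f => ⟨(f.coeff (s * f.natTrailingDegree) / (c * f.trailingCoeff ^ s)) % 2,
    Nat.mod_lt _ (by norm_num)⟩, ?_⟩
  intro x z hx hz h
  obtain ⟨n, α, x', hn, hα, hxx, hα'⟩ := exists_lead hx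
  have hx1 : x = x ^ 1 * (C 1 + x * 0) := by simp
  have ex := coeff_pow (k := 1) (c := 1) (h := 0) hn hxx hα'
  rw [← hx1, one_mul] at ex
  have hxo := ord_eq (f := x) (n := n) (fun i hi => ex.1 i hi) (by rw [ex.2]; simpa using hα)
  have hc := coeff_pow (k := s) (c := c) (h := S.comp x) hn hxx hα'
  rw [← comp_dec, ← hS] at hc
  have ht := coeff_tail (n := n) hxx hB hz.2
  have hsn : s * n ≤ l * n := Nat.mul_le_mul_right _ hsl
  have hnsn : n < s * n := by nlinarith
  have hAx : A.comp x = x + (X ^ 2 * R).comp x := by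
    conv_lhs => rw [hR, add_comp, X_comp]
  have hval := ord_eq (f := A.comp x + B.comp x * z) (n := n)
    (fun i hi => by rw [coeff_add, hAx, coeff_add, ex.1 i hi, hc.1 i (by omega), ht i (by omega)])
    (by rw [coeff_add, hAx, coeff_add, ex.2, hc.1 n hnsn, ht n (by omega)]; simpa using hα)
  have hvn : (A.comp x + B.comp x * z).coeff n = α := by
    rw [coeff_add, hAx, coeff_add, ex.2, hc.1 n hnsn, ht n (by omega)]; simp
  have hvs : (A.comp x + B.comp x * z).coeff (s * n) = x.coeff (s * n) + c * α ^ s := by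
    rw [coeff_add, hAx, coeff_add, hc.2, ht _ hsn, add_zero, mul_comm c]
  simp only [Fin.mk.injEq] at h
  rw [hval.2, hval.1, hxo.2, hxo.1, ex.2, hvn, hvs, pow_one, mul_one,
    Nat.add_div_right _ (Nat.mul_pos (Nat.pos_of_ne_zero hs0)
      (pow_pos (Nat.pos_of_ne_zero hα) _))] at h
  omega

end neg

end Pool.Agent.Y713.PT
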